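import Pool.Agent.H71.EQ.Targets

/-!
Row EXC of the board eqr_modules (MP_7ecdd4_nt): the excess.
-/

set_option autoImplicit false

namespace Pool.Agent.H64.EQ

open Pool.Agent.H71.EQ Pool.Agent.H38.AE.Statement

theorem pf_EXC : T_EXC := by
  intro n x hx
  have h0 : (∏ i, x i) ≠ 0 := Finset.prod_ne_zero_iff.2 fun i _ => hx i
  have h1 : 1 ≤ pr x := Int.natAbs_pos.2 h0
  have h2 : rd x ∣ pr x := Nat.prod_primeFactors_dvd _
  have h3 : 1 ≤ rd x := Nat.pos_of_dvd_of_pos h2 h1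
  have h4 : pr x = rd x * exc x := (Nat.mul_div_cancel' h2).symm
  have h5 : 1 ≤ exc x := Nat.div_pos (Nat.le_of_dvd h1 h2) h3
  refine ⟨h1, h3, h5, h4, ?_⟩
  have h6 : ((exc x : ℕ) : ℝ) = (pr x : ℝ) / (rd x : ℝ) := Nat.cast_div h2 (by positivity)
  exact h6

end Pool.Agent.H64.EQ
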